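import Pool.Agent.helper35.FGN.Spec
import Pool.Agent.helper7.FO.HOM

/-!
# Project fgn (MP_a2a22c_al), row HOM: no homomorphisms to the rational numbers, all `n ≥ 3`
-/

set_option autoImplicit false

namespace Pool.Agent.FGN

open Matrix Pool.Agent.H48SL Pool.Agent.UG Pool.Agent.LV

theorem HOM_mono (n m m' : ℕ) (h : m ∣ m') : Cong (Fin n) m' ≤ Cong (Fin n) m := by
  intro γ hγ
  obtain ⟨e, rfl⟩ := h
  obtain ⟨B, hB⟩ := mem_Cong.1 hγ
  refine mem_Cong.2 ⟨(e : ℤ) • B, ?_⟩
  rw [hB, smul_smul]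
  push_cast
  rfl

theorem HOM (hABF : ABF_stmt) : HOM_stmt := by
  intro n hn H hFG hP hC N hN hNi f hf a ha
  have hFGN : Group.FG (N.subgroupOf H) := by
    have : (N.subgroupOf H).FiniteIndex := ⟨hNi⟩
    exact Subgroup.fg_of_index_ne_zero (N.subgroupOf H)
  have hFG' : Group.FG N := by
    have e := Subgroup.subgroupOfEquivOfLe hN
    exact Group.fg_of_surjective (f := e.toMonoidHom) e.surjective
  obtain ⟨d, F, hd, hF⟩ := Pool.Agent.FO.HOM_int N hFG' (fun n => f n) (fun x y => hf x x.2 y y.2)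
  have h1 := Pool.Agent.FO.HOM_abs (SLZ n) (fun m => Cong (Fin n) m)
    (fun m => by change (Matrix.SpecialLinearGroup.map (n := Fin n) (Int.castRingHom (ZMod m))).ker.Normal; infer_instance)
    (fun m hm => by
      have : NeZero m := ⟨hm⟩
      change (Matrix.SpecialLinearGroup.map (n := Fin n) (Int.castRingHom (ZMod m))).ker.index ≠ 0
      rw [Subgroup.index_ker]
      exact Nat.card_pos.ne')
    (HOM_mono n) (fun q hq => (hABF n hn q hq).index_ne_zero) H hP hC N hN hNi F ⟨a, ha⟩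
  have h2 := hF ⟨a, ha⟩
  rw [h1] at h2
  have h3 : (d : ℚ) * f a = 0 := by
    rw [h2]; rfl
  rcases mul_eq_zero.1 h3 with h4 | h4
  · exact absurd (Nat.cast_eq_zero.1 h4) hd
  · exact h4

end Pool.Agent.FGN
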